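import Mathlib

set_option autoImplicit false

open Finset

namespace Pool.Agent.Results.MP_4dbef5_lc.CyclicWords

/-- `T` is an NC-teacher for the concept class `C`. -/
def IsTeacher {n : ℕ} (C : Finset (Fin n → ZMod 2)) (T : (Fin n → ZMod 2) → Finset (Fin n)) :
    Prop :=
  ∀ c ∈ C, ∀ c' ∈ C, c ≠ c' → ∃ x ∈ T c ∪ T c', c x ≠ c' x

/-- The NC-teaching dimension of `C` is at most `d`. -/
def DimLe {n : ℕ} (C : Finset (Fin n → ZMod 2)) (d : ℕ) : Prop :=
  ∃ T, IsTeacher C T ∧ ∀ c ∈ C, (T c).card ≤ d

/-- The NC-teaching dimension. -/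
noncomputable def NCTD {n : ℕ} (C : Finset (Fin n → ZMod 2)) : ℕ := sInf {d | DimLe C d}

/-- The largest size of a class over `n` points of NC-teaching dimension exactly `d`. -/
noncomputable def MNC (n d : ℕ) : ℕ :=
  sSup {m | ∃ C : Finset (Fin n → ZMod 2), NCTD C = d ∧ C.card = m}

/-- The word with first letter `b` (up to `d`) changing exactly at the positions in `S`. -/
def word {m : ℕ} (b : ZMod 2) (S : Finset (Fin (m + 1))) (i : Fin (m + 1)) : ZMod 2 :=
  b + ((S.filter (fun j => 0 < j ∧ j ≤ i)).card : ZMod 2)

/-- positions where the cyclic (`d` even) or anticyclic (`d` odd) word changes -/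
def changes {m : ℕ} (d : ℕ) (w : Fin (m + 1) → ZMod 2) : Finset (Fin (m + 1)) :=
  univ.filter (fun i => w i ≠ (if i = 0 then w (Fin.last m) + d else w (i - 1)))

lemma changes_word {m d : ℕ} (b : ZMod 2) (S : Finset (Fin (m + 1)))
    (hS : (S.card : ZMod 2) = d) : changes d (word b S) = S := by
  ext i
  simp only [changes, mem_filter, mem_univ, true_and]
  by_cases hi : i = 0
  · subst hi
    rw [if_pos rfl]
    unfold word
    have h1 : S.filter (fun j => 0 < j ∧ j ≤ 0) = ∅ := by
      ext x
      simp only [mem_filter, notMem_empty, iff_false, not_and]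
      intro _ h
      exact not_le.2 h
    have h2 : S.filter (fun j => 0 < j ∧ j ≤ Fin.last m) = S.erase 0 := by
      ext x
      simp only [mem_filter, mem_erase, Fin.le_last, and_true]
      rw [Fin.pos_iff_ne_zero]
      tauto
    rw [h1, h2, card_empty, Nat.cast_zero, add_zero, ← hS]
    by_cases h0 : (0 : Fin (m + 1)) ∈ S
    · have h3 : (S.card : ZMod 2) = ((S.erase 0).card : ZMod 2) + 1 := by
        rw [← card_erase_add_one h0]; push_cast; rfl
      rw [h3]
      simp only [h0, iff_true]
      intro h
      have h4 : ((S.erase 0).card : ZMod 2) + ((S.erase 0).card : ZMod 2) = 0 := CharTwo.add_self_eq_zero _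
      have h5 : (1 : ZMod 2) = 0 := by linear_combination -h - h4
      exact one_ne_zero h5
    · rw [erase_eq_of_notMem h0]
      simp only [h0, iff_false, not_not]
      have h4 : (S.card : ZMod 2) + (S.card : ZMod 2) = 0 := CharTwo.add_self_eq_zero _
      linear_combination -h4
  · rw [if_neg hi]
    unfold word
    have hpos : 0 < i := Fin.pos_iff_ne_zero.2 hi
    have hval : ((i - 1 : Fin (m + 1)) : ℕ) = i - 1 := by
      rw [Fin.val_sub_one_of_ne_zero hi]
    by_cases hiS : i ∈ S
    · have h1 : S.filter (fun j => 0 < j ∧ j ≤ i) =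
          insert i (S.filter (fun j => 0 < j ∧ j ≤ i - 1)) := by
        ext x
        simp only [mem_filter, mem_insert, Fin.le_def, Fin.lt_def, Fin.ext_iff, hval]
        have hp : (0 : ℕ) < i := hpos
        constructor
        · rintro ⟨h2, h3, h4⟩
          by_cases h5 : (x : ℕ) = i
          · exact Or.inl h5
          · exact Or.inr ⟨h2, h3, by omega⟩
        · rintro (h2 | ⟨h2, h3, h4⟩)
          · have : x = i := Fin.ext h2
            subst this
            exact ⟨hiS, hp, le_rfl⟩
          · exact ⟨h2, h3, by omega⟩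
      have h2 : i ∉ S.filter (fun j => 0 < j ∧ j ≤ i - 1) := by
        simp only [mem_filter, Fin.le_def, hval, not_and]
        intro _ _ h
        have hp : (0 : ℕ) < i := hpos
        omega
      rw [h1, card_insert_of_notMem h2]
      simp only [hiS, iff_true]
      intro h
      push_cast at h
      have h5 : (1 : ZMod 2) = 0 := by linear_combination h
      exact one_ne_zero h5
    · have h1 : S.filter (fun j => 0 < j ∧ j ≤ i) =
          S.filter (fun j => 0 < j ∧ j ≤ i - 1) := by
        ext x
        simp only [mem_filter, Fin.le_def, Fin.lt_def, hval]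
        constructor
        · rintro ⟨h2, h3, h4⟩
          have h5 : (x : ℕ) ≠ i := fun h => hiS (by rw [← Fin.ext h]; exact h2)
          exact ⟨h2, h3, by omega⟩
        · rintro ⟨h2, h3, h4⟩
          exact ⟨h2, h3, by omega⟩
      rw [h1]
      simp [hiS]

lemma teacher {m : ℕ} (d : ℕ) (w w' : Fin (m + 1) → ZMod 2) (hne : w ≠ w')
    (h : ∀ x ∈ changes d w ∪ changes d w', w x = w' x) : changes d w = ∅ := by
  -- the difference propagates
  have hstep0 : w 0 ≠ w' 0 → w (Fin.last m) ≠ w' (Fin.last m) := by
    intro h0 hl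
    apply h0
    apply h
    by_contra hcon
    simp only [changes, mem_union, mem_filter, mem_univ, true_and, not_or, not_not, if_true] at hcon
    exact h0 (by rw [hcon.1, hcon.2, hl])
  have hstep : ∀ i : Fin (m + 1), i ≠ 0 → w i ≠ w' i → w (i - 1) ≠ w' (i - 1) := by
    intro i hi h0 hl
    apply h0
    apply h
    by_contra hcon
    simp only [changes, mem_union, mem_filter, mem_univ, true_and, not_or, not_not, if_neg hi] at hcon
    exact h0 (by rw [hcon.1, hcon.2, hl])
  have hdown : ∀ a : ℕ, ∀ i : Fin (m + 1), (i : ℕ) = a → w i ≠ w' i → w 0 ≠ w' 0 := by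
    intro a
    induction a with
    | zero =>
      intro i hi h0
      have : i = 0 := Fin.ext hi
      rwa [this] at h0
    | succ a ih =>
      intro i hi h0
      have hi0 : i ≠ 0 := by
        intro h1
        rw [h1] at hi
        simp at hi
      exact ih (i - 1) (by rw [Fin.val_sub_one_of_ne_zero hi0, hi]; rfl) (hstep i hi0 h0)
  obtain ⟨i, hi⟩ := Function.ne_iff.1 hne
  have hlast := hstep0 (hdown i i rfl hi)
  have hall : ∀ a : ℕ, ∀ j : Fin (m + 1), (j : ℕ) + a = m → w j ≠ w' j := by
    intro a
    induction a with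
    | zero =>
      intro j hj
      have : j = Fin.last m := Fin.ext (by simpa using hj)
      rw [this]
      exact hlast
    | succ a ih =>
      intro j hj
      have hlt : (j : ℕ) + 1 < m + 1 := by omega
      have h1 := ih ⟨(j : ℕ) + 1, hlt⟩ (by simp only; omega)
      have hne0 : (⟨(j : ℕ) + 1, hlt⟩ : Fin (m + 1)) ≠ 0 := by
        intro h2
        have := congrArg Fin.val h2
        simp at this
      have h2 := hstep _ hne0 h1
      have h3 : (⟨(j : ℕ) + 1, hlt⟩ : Fin (m + 1)) - 1 = j := by
        apply Fin.ext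
        rw [Fin.val_sub_one_of_ne_zero hne0]
        simp
      rwa [h3] at h2
  by_contra hcon
  obtain ⟨x, hx⟩ := nonempty_iff_ne_empty.2 hcon
  exact hall (m - x) x (by have := x.2; omega) (h x (mem_union_left _ hx))

/-- the sets of change positions used -/
def sets (m d : ℕ) : Finset (Finset (Fin (m + 1))) :=
  univ.filter (fun S => S.card ≤ d ∧ S.card % 2 = d % 2)

lemma card_sets (m d : ℕ) : (sets m d).card =
    ∑ j ∈ (range (d + 1)).filter (fun j => j % 2 = d % 2), (m + 1).choose j := by
  have h1 : sets m d = ((range (d + 1)).filter (fun j => j % 2 = d % 2)).biUnion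
      (fun j => powersetCard j univ) := by
    ext S
    simp only [sets, mem_filter, mem_univ, true_and, mem_biUnion, mem_range, mem_powersetCard,
      subset_univ]
    constructor
    · rintro ⟨h2, h3⟩
      exact ⟨S.card, ⟨by omega, h3⟩, rfl⟩
    · rintro ⟨j, ⟨h2, h3⟩, h4⟩
      rw [h4]
      exact ⟨by omega, h3⟩
  rw [h1, card_biUnion]
  · apply sum_congr rfl
    intro j _
    rw [card_powersetCard, card_univ, Fintype.card_fin]
  · intro i _ j _ hij
    exact pairwise_disjoint_powersetCard _ hij

/-- the concept class -/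
noncomputable def cls (m d : ℕ) : Finset (Fin (m + 1) → ZMod 2) :=
  (univ ×ˢ sets m d).image (fun p => word p.1 p.2)

lemma mem_sets_cast {m d : ℕ} {S : Finset (Fin (m + 1))} (h : S ∈ sets m d) :
    (S.card : ZMod 2) = d := by
  simp only [sets, mem_filter] at h
  exact (ZMod.natCast_eq_natCast_iff _ _ _).2 h.2.2

lemma card_cls (m d : ℕ) : (cls m d).card = 2 * (sets m d).card := by
  unfold cls
  rw [card_image_of_injOn, card_product]
  · rfl
  · rintro ⟨b, S⟩ hp ⟨b', S'⟩ hp' heq
    simp only [coe_product, Set.mem_prod, mem_coe] at hp hp'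
    simp only at heq
    have h1 : S = S' := by
      rw [← changes_word b S (mem_sets_cast hp.2), ← changes_word b' S' (mem_sets_cast hp'.2), heq]
    subst h1
    have h2 := congrFun heq 0
    unfold word at h2
    have h3 : b = b' := by
      exact add_right_cancel h2
    rw [h3]

lemma cls_dim (m d : ℕ) (hd : 1 ≤ d) : DimLe (cls m d) d := by
  refine ⟨fun w => if changes d w = ∅ then {0} else changes d w, ?_, ?_⟩
  · intro c _ c' _ hne
    by_contra hcon
    push Not at hcon
    have hsub : ∀ w : Fin (m + 1) → ZMod 2, changes d w ⊆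
        (if changes d w = ∅ then {0} else changes d w) := by
      intro w
      split_ifs with h
      · rw [h]; exact empty_subset _
      · exact subset_rfl
    have h1 := teacher d c c' hne (fun x hx => hcon x (union_subset_union (hsub c) (hsub c') hx))
    have h2 := teacher d c' c hne.symm (fun x hx => (hcon x (by
      rw [union_comm] at hx
      exact union_subset_union (hsub c) (hsub c') hx)).symm)
    -- both words are constant (cyclically), and agree at 0
    have h0 : c 0 = c' 0 := hcon 0 (by
      rw [if_pos h1, mem_union]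
      left
      exact mem_singleton_self _)
    apply hne
    have hprop : ∀ w : Fin (m + 1) → ZMod 2, changes d w = ∅ → ∀ a : ℕ, ∀ i : Fin (m + 1),
        (i : ℕ) = a → w i = w 0 := by
      intro w hw a
      induction a with
      | zero =>
        intro i hi
        rw [show i = 0 from Fin.ext hi]
      | succ a ih =>
        intro i hi
        have hi0 : i ≠ 0 := by
          intro h1
          rw [h1] at hi
          simp at hi
        have h3 : i ∉ changes d w := by rw [hw]; exact notMem_empty i
        simp only [changes, mem_filter, mem_univ, true_and, not_not, if_neg hi0] at h3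
        rw [h3]
        exact ih (i - 1) (by rw [Fin.val_sub_one_of_ne_zero hi0, hi]; rfl)
    funext i
    rw [hprop c h1 i i rfl, hprop c' h2 i i rfl, h0]
  · intro c hc
    unfold cls at hc
    rw [mem_image] at hc
    obtain ⟨⟨b, S⟩, hp, rfl⟩ := hc
    rw [mem_product] at hp
    simp only
    rw [changes_word b S (mem_sets_cast hp.2)]
    split_ifs
    · simpa using hd
    · have := hp.2
      simp only [sets, mem_filter] at this
      exact this.2.1

/-- A class of NC-teaching dimension at most `e ≤ n` has at most `2^e C(n,e)` members. -/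
lemma card_le {n : ℕ} (C : Finset (Fin n → ZMod 2)) (e : ℕ) (he : e ≤ n) (h : DimLe C e) :
    C.card ≤ 2 ^ e * n.choose e := by
  classical
  obtain ⟨T, hT, hTe⟩ := h
  have hU : ∀ c : Fin n → ZMod 2, ∃ U : Finset (Fin n), c ∈ C → (T c ⊆ U ∧ U.card = e) := by
    intro c
    by_cases hc : c ∈ C
    · obtain ⟨U, hU1, hU2⟩ := exists_superset_card_eq (s := T c) (n := e) (hTe c hc)
        (by rw [Fintype.card_fin]; exact he)
      exact ⟨U, fun _ => ⟨hU1, hU2⟩⟩
    · exact ⟨∅, fun h => absurd h hc⟩
  choose U hU using hU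
  have h1 : C.card ≤ ((powersetCard e (univ : Finset (Fin n))).sigma
      (fun U => U.powerset)).card := by
    apply card_le_card_of_injOn (fun c => (⟨U c, (U c).filter (fun x => c x = 1)⟩ :
      Σ _ : Finset (Fin n), Finset (Fin n)))
    · intro c hc
      rw [mem_coe] at hc
      simp only [coe_sigma, Set.mem_sigma_iff, mem_coe, mem_powersetCard, subset_univ, true_and,
        mem_powerset, filter_subset, and_true]
      exact (hU c hc).2
    · intro c hc c' hc' heq
      rw [mem_coe] at hc hc'
      by_contra hne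
      obtain ⟨x, hx, hxne⟩ := hT c hc c' hc' hne
      simp only [Sigma.mk.injEq, heq_eq_eq] at heq
      obtain ⟨e1, e2⟩ := heq
      have hxU : x ∈ U c := by
        rcases mem_union.1 hx with h2 | h2
        · exact (hU c hc).1 h2
        · rw [e1]; exact (hU c' hc').1 h2
      have hxU' : x ∈ U c' := by rw [← e1]; exact hxU
      have h3 : (c x = 1 ↔ c' x = 1) := by
        have := congrArg (fun s => x ∈ s) e2
        simp only [mem_filter, hxU, hxU', true_and, eq_iff_iff] at this
        exact this
      apply hxne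
      generalize c x = p at h3
      generalize c' x = q at h3
      revert p q
      decide
  refine h1.trans (le_of_eq ?_)
  rw [card_sigma, sum_congr rfl (fun U hU => by
    rw [card_powerset, (mem_powersetCard.1 hU).2]), sum_const, card_powersetCard, card_univ,
    Fintype.card_fin, smul_eq_mul, mul_comm]

lemma growth {n d j : ℕ} (hn : d * 2 ^ d ≤ n) (hj : j < d) :
    2 ^ (d - 1) * n.choose j ≤ n.choose (j + 1) := by
  obtain ⟨P, hP⟩ : ∃ P, 2 ^ (d - 1) = P := ⟨_, rfl⟩
  have hP1 : 1 ≤ P := by rw [← hP]; exact Nat.one_le_two_pow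
  have h2 : 2 ^ d = 2 * P := by
    rw [← hP, ← pow_succ']
    congr 1
    omega
  rw [h2] at hn
  rw [hP]
  have h3 := Nat.choose_succ_right_eq n j
  have h4 : P * (j + 1) ≤ n - j := by
    have h5 : P * (j + 1) ≤ P * d := Nat.mul_le_mul_left P (by omega)
    have h6 : d ≤ P * d := Nat.le_mul_of_pos_left d hP1
    have h7 : d * (2 * P) = P * d + P * d := by ring
    omega
  have h5 : (P * n.choose j) * (j + 1) ≤ n.choose (j + 1) * (j + 1) := by
    rw [h3]
    calc (P * n.choose j) * (j + 1) = n.choose j * (P * (j + 1)) := by ring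
      _ ≤ n.choose j * (n - j) := Nat.mul_le_mul_left _ h4
  exact Nat.le_of_mul_le_mul_right h5 (by omega)

lemma mono_choose {n d : ℕ} (hn : d * 2 ^ d ≤ n) (e t : ℕ) (h : e + t ≤ d) :
    n.choose e ≤ n.choose (e + t) := by
  induction t with
  | zero => exact le_rfl
  | succ t ih =>
    refine (ih (by omega)).trans ?_
    refine le_trans ?_ (growth (j := e + t) hn (by omega))
    exact Nat.le_mul_of_pos_left _ (by positivity)

lemma big {m d : ℕ} (hn : d * 2 ^ d ≤ m + 1) (e : ℕ) (he : e < d) :
    2 ^ e * (m + 1).choose e <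
      2 * ∑ j ∈ (range (d + 1)).filter (fun j => j % 2 = d % 2), (m + 1).choose j := by
  have h1 : (m + 1).choose d ≤
      ∑ j ∈ (range (d + 1)).filter (fun j => j % 2 = d % 2), (m + 1).choose j := by
    apply single_le_sum (f := fun j => (m + 1).choose j) (fun _ _ => Nat.zero_le _)
    simp
  have h2 := mono_choose hn (e + 1) (d - (e + 1)) (by omega)
  rw [show e + 1 + (d - (e + 1)) = d by omega] at h2
  have h3 := growth hn he
  have h4 : 2 ^ e * (m + 1).choose e ≤ 2 ^ (d - 1) * (m + 1).choose e :=
    Nat.mul_le_mul_right _ (Nat.pow_le_pow_right (by norm_num) (by omega))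
  have hdn : d ≤ m + 1 := by
    have : d * 1 ≤ d * 2 ^ d := Nat.mul_le_mul_left d Nat.one_le_two_pow
    omega
  have h5 : 0 < (m + 1).choose d := Nat.choose_pos hdn
  omega

/-- **Cyclic words.** Let `n = m + 1 ≥ 1` and `d ≥ 1`. (1) There is a concept class over `n`
points of NC-teaching dimension at most `d` and of size `2 ∑_{j ≤ d, j ≡ d mod 2} C(n,j)`.
(2) If this size exceeds `2^e C(n,e)` for every `e < d` and `d ≤ n`, then `M_NC(n,d)` is at least
this size. (3) This is so for all `n ≥ d 2^d`. -/
theorem result (m d : ℕ) (hd : 1 ≤ d) :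
    (∃ C : Finset (Fin (m + 1) → ZMod 2), DimLe C d ∧
      C.card = 2 * ∑ j ∈ (range (d + 1)).filter (fun j => j % 2 = d % 2), (m + 1).choose j) ∧
    (d ≤ m + 1 → (∀ e < d, 2 ^ e * (m + 1).choose e <
        2 * ∑ j ∈ (range (d + 1)).filter (fun j => j % 2 = d % 2), (m + 1).choose j) →
      2 * ∑ j ∈ (range (d + 1)).filter (fun j => j % 2 = d % 2), (m + 1).choose j ≤
        MNC (m + 1) d) ∧
    (d * 2 ^ d ≤ m + 1 →
      2 * ∑ j ∈ (range (d + 1)).filter (fun j => j % 2 = d % 2), (m + 1).choose j ≤
        MNC (m + 1) d) := by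
  have key : d ≤ m + 1 → (∀ e < d, 2 ^ e * (m + 1).choose e <
        2 * ∑ j ∈ (range (d + 1)).filter (fun j => j % 2 = d % 2), (m + 1).choose j) →
      2 * ∑ j ∈ (range (d + 1)).filter (fun j => j % 2 = d % 2), (m + 1).choose j ≤
        MNC (m + 1) d := by
    intro hdn hbig
    apply le_csSup
    · refine ⟨Fintype.card (Fin (m + 1) → ZMod 2), ?_⟩
      rintro x ⟨C, _, rfl⟩
      exact card_le_univ C
    · refine ⟨cls m d, ?_, by rw [card_cls, card_sets]⟩
      apply le_antisymm
      · exact Nat.sInf_le (cls_dim m d hd)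
      · apply le_csInf ⟨d, cls_dim m d hd⟩
        intro e he
        by_contra hcon
        push Not at hcon
        have h1 := card_le (cls m d) e (by omega) he
        rw [card_cls, card_sets] at h1
        exact absurd (hbig e hcon) (not_lt.2 h1)
  refine ⟨⟨cls m d, cls_dim m d hd, by rw [card_cls, card_sets]⟩, key, ?_⟩
  intro hn
  apply key
  · have : d * 1 ≤ d * 2 ^ d := Nat.mul_le_mul_left d Nat.one_le_two_pow
    omega
  · exact fun e he => big hn e he

end Pool.Agent.Results.MP_4dbef5_lc.CyclicWords
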